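import Pool.Agent.Y998.LQ.Defs4
import Pool.Agent.Y514.LQ.TYP

/-!
# Project LR, job LONG: choice of the parameters
-/

set_option autoImplicit false

namespace Pool.Agent.Y794.LR

open Finset Equiv Filter Topology Pool.Agent.Y998.ST Pool.Agent.Y998.CN Pool.Agent.Y998.LP
open Pool.Agent.Y998.LQ
open Pool.Agent.Y514.LQ (box_at exp_le_one exp_zero)

theorem exp_mono {V : Type} [Fintype V] [DecidableEq V] (J : V → V → ℝ) (t : ℝ) (ht : 0 ≤ t)
    (hJ : ∀ x y, 0 ≤ J x y) (A B : Perm V → Prop) [DecidablePred A] [DecidablePred B]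
    (h : ∀ g, A g → B g) :
    stirExp J t (fun g => if A g then 1 else 0) ≤ stirExp J t (fun g => if B g then 1 else 0) := by
  unfold stirExp
  refine sum_le_sum fun g _ => ?_
  have h0 := law_nonneg hJ ht g
  show stirLaw J t g * (if A g then 1 else 0) ≤ stirLaw J t g * (if B g then 1 else 0)
  refine mul_le_mul_of_nonneg_left ?_ h0
  by_cases hA : A g
  · rw [if_pos hA, if_pos (h g hA)]
  · rw [if_neg hA]
    split_ifs <;> norm_num

/-- the numbers in the main case -/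
theorem num (d : ℕ) (hd : 3 ≤ d) (a s l R K Bc : ℝ) (ha : 0 < a) (ha1 : a ≤ 1) (hs : 0 < s)
    (hl : 0 < l) (hR1 : R * s ^ 2 ≤ s ^ d) (hR2 : R * s ^ d ≤ l ^ d) (hK0 : 0 ≤ K)
    (hK : K ≤ a ^ 2 * R) (hB : Bc ≤ 8 * (a * s) ^ d) :
    Bc * ((s ^ d)⁻¹ + K / l ^ d) + (K * (s ^ 2 / s ^ d) + K ^ 2 * s ^ 2 / l ^ d) ≤ 18 * a ^ 2 := by
  have hsd : 0 < s ^ d := pow_pos hs d
  have hld : 0 < l ^ d := pow_pos hl d
  have ha2 : a ^ 2 ≤ 1 := pow_le_one₀ ha.le ha1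
  have had : a ^ d ≤ a ^ 2 := pow_le_pow_of_le_one ha.le ha1 (by omega)
  have x1 : K * (s ^ 2 / s ^ d) ≤ a ^ 2 := by
    rw [← mul_div_assoc, div_le_iff₀ hsd]
    calc K * s ^ 2 ≤ a ^ 2 * R * s ^ 2 := mul_le_mul_of_nonneg_right hK (by positivity)
      _ = a ^ 2 * (R * s ^ 2) := by ring
      _ ≤ a ^ 2 * s ^ d := mul_le_mul_of_nonneg_left hR1 (by positivity)
  have x2 : K * s ^ d / l ^ d ≤ a ^ 2 := by
    rw [div_le_iff₀ hld]
    calc K * s ^ d ≤ a ^ 2 * R * s ^ d := mul_le_mul_of_nonneg_right hK (by positivity)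
      _ = a ^ 2 * (R * s ^ d) := by ring
      _ ≤ a ^ 2 * l ^ d := mul_le_mul_of_nonneg_left hR2 (by positivity)
  have x3 : K ^ 2 * s ^ 2 / l ^ d ≤ a ^ 2 := by
    have e : K ^ 2 * s ^ 2 / l ^ d = (K * (s ^ 2 / s ^ d)) * (K * s ^ d / l ^ d) := by
      field_simp
    rw [e]
    calc (K * (s ^ 2 / s ^ d)) * (K * s ^ d / l ^ d) ≤ a ^ 2 * 1 :=
          mul_le_mul x1 (x2.trans ha2) (by positivity) (by positivity)
      _ = a ^ 2 := mul_one _
  have x4 : Bc * ((s ^ d)⁻¹ + K / l ^ d) ≤ 16 * a ^ 2 := by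
    calc Bc * ((s ^ d)⁻¹ + K / l ^ d) ≤ 8 * (a * s) ^ d * ((s ^ d)⁻¹ + K / l ^ d) :=
          mul_le_mul_of_nonneg_right hB (by positivity)
      _ = 8 * a ^ d * (1 + K * s ^ d / l ^ d) := by
          rw [mul_pow]
          field_simp
      _ ≤ 8 * a ^ 2 * (1 + 1) := by
          refine mul_le_mul (by linarith) (by linarith) (by positivity) (by positivity)
      _ = 16 * a ^ 2 := by ring
  linarith

theorem t_LONG (hCOMB : Pool.Agent.Y998.LQ.S_COMB) (hBAD : Pool.Agent.Y998.LQ.S_BAD)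
    (hSHC : Pool.Agent.Y998.LQ.S_SHC) (hTYP : Pool.Agent.Y998.LQ.S_TYP)
    (hDST : Pool.Agent.Y998.LQ.S_DST) : Pool.Agent.Y998.LQ.S_LONG := by
  classical
  intro d hd
  obtain ⟨C0, hC0, hD⟩ := hDST d (by omega)
  obtain ⟨C1, hC1, hT⟩ := hTYP d (by omega)
  obtain ⟨C2, hC2, hB⟩ := hBAD d hd
  obtain ⟨C3, hC3, hS⟩ := hSHC d hd
  have hCd : 0 ≤ C0 * d := by positivity
  refine ⟨8 + C1 + 6 * C3 + 2 + 8 * (C0 * d) + 72 * C2, by positivity, ?_⟩
  intro L _ hL t ht v M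
  have hLpos : 0 < L := by omega
  have hL0 : (0 : ℝ) < L := by exact_mod_cast hLpos
  have hJ : ∀ x y, 0 ≤ nnRate d L x y := nn_nonneg
  have hd3 : (3 : ℝ) ≤ d := by exact_mod_cast hd
  obtain ⟨Q, hQ⟩ : ∃ Q : ℝ, Q = min (t ^ ((d : ℝ) - 1)) ((L : ℝ) ^ d) := ⟨_, rfl⟩
  have hQ0 : 0 < Q := by
    rw [hQ]
    exact lt_min (Real.rpow_pos_of_pos ht _) (by positivity)
  rw [← hQ]
  rcases Nat.eq_zero_or_pos M with hM | hM
  · subst hM
    rw [exp_zero]
    positivity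
  have hMr : (1 : ℝ) ≤ M := by exact_mod_cast hM
  obtain ⟨a, ha⟩ : ∃ a : ℝ, a = ((M : ℝ) / Q) ^ (1 / ((d : ℝ) + 3)) := ⟨_, rfl⟩
  rw [← ha]
  have ha0 : 0 < a := by
    rw [ha]
    exact Real.rpow_pos_of_pos (by positivity) _
  have hap : a ^ (d + 3) = M / Q := by
    rw [ha, ← Real.rpow_natCast, ← Real.rpow_mul (by positivity)]
    push_cast
    rw [one_div, inv_mul_cancel₀ (by positivity), Real.rpow_one]
  have hMQ : (M : ℝ) = a ^ (d + 3) * Q := by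
    rw [hap]
    field_simp
  -- the bound by a constant
  have fin : ∀ c : ℝ, c ≤ 8 + C1 + 6 * C3 + 2 + 8 * (C0 * d) + 72 * C2 →
      c * a ≤ (8 + C1 + 6 * C3 + 2 + 8 * (C0 * d) + 72 * C2) * a :=
    fun c hc => mul_le_mul_of_nonneg_right hc ha0.le
  rcases le_or_gt (1 / 8) a with h8 | h8
  · refine (exp_le_one _ t ht.le hJ v M).trans (le_trans ?_ (fin 8 (by linarith)))
    linarith
  have ha1 : a < 1 := by linarith
  have hapow : ∀ i : ℕ, a ^ i ≤ 1 := fun i => pow_le_one₀ ha0.le ha1.le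
  have hQ1 : 1 < Q := by
    by_contra hcon
    push Not at hcon
    have h1 : a ^ (d + 3) < 1 := pow_lt_one₀ ha0.le ha1 (by omega)
    nlinarith
  -- the use of TYP
  have typ : (M : ℝ) ≤ a ^ (d + 1) * min t ((L : ℝ) ^ 2) ^ ((d : ℝ) / 2) →
      stirExp (nnRate d L) t (fun g => if cycleLen g v ≤ M then 1 else 0) ≤ C1 * a := by
    intro h
    refine (hT L hL t ht v M).trans (mul_le_mul_of_nonneg_left ?_ hC1.le)
    have hT0 : 0 < min t ((L : ℝ) ^ 2) := lt_min ht (by positivity)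
    have h1 : 0 < min t ((L : ℝ) ^ 2) ^ ((d : ℝ) / 2) := Real.rpow_pos_of_pos hT0 _
    have h2 : (M : ℝ) / min t ((L : ℝ) ^ 2) ^ ((d : ℝ) / 2) ≤ a ^ (d + 1) := by
      rw [div_le_iff₀ h1]
      exact h
    calc ((M : ℝ) / min t ((L : ℝ) ^ 2) ^ ((d : ℝ) / 2)) ^ (1 / ((d : ℝ) + 1)) ≤
          (a ^ (d + 1)) ^ (1 / ((d : ℝ) + 1)) :=
          Real.rpow_le_rpow (by positivity) h2 (by positivity)
      _ = a := by
          rw [← Real.rpow_natCast, ← Real.rpow_mul ha0.le]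
          push_cast
          rw [mul_one_div, div_self (by positivity), Real.rpow_one]
  have hQL : Q ≤ (L : ℝ) ^ d := by rw [hQ]; exact min_le_right _ _
  rcases le_or_gt ((L : ℝ) ^ 2) t with hLt | hLt
  · -- `t ≥ L ^ 2`
    refine (typ ?_).trans (fin C1 (by linarith))
    rw [min_eq_right hLt]
    have e1 : ((L : ℝ) ^ 2) ^ ((d : ℝ) / 2) = (L : ℝ) ^ d := by
      rw [← Real.rpow_natCast, ← Real.rpow_mul hL0.le, ← Real.rpow_natCast]
      congr 1
      push_cast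
      ring
    rw [e1, hMQ]
    have e2 : a ^ (d + 3) = a ^ (d + 1) * a ^ 2 := by ring
    rw [e2]
    have e3 : a ^ (d + 1) * a ^ 2 ≤ a ^ (d + 1) * 1 :=
      mul_le_mul_of_nonneg_left (hapow 2) (by positivity)
    rw [mul_one] at e3
    exact mul_le_mul e3 hQL hQ0.le (by positivity)
  -- `t < L ^ 2`
  have ht1 : 1 ≤ t := by
    by_contra hcon
    push Not at hcon
    have h1 : t ^ ((d : ℝ) - 1) ≤ 1 := Real.rpow_le_one ht.le hcon.le (by linarith)
    have h2 : Q ≤ t ^ ((d : ℝ) - 1) := by rw [hQ]; exact min_le_left _ _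
    linarith
  obtain ⟨s, hs⟩ : ∃ s : ℝ, s = Real.sqrt t := ⟨_, rfl⟩
  have hs0 : 0 < s := by rw [hs]; exact Real.sqrt_pos.2 ht
  have hts : t = s ^ 2 := by rw [hs, Real.sq_sqrt ht.le]
  have hs1 : 1 ≤ s := by
    rw [hs]
    exact Real.one_le_sqrt.2 ht1
  have hsd : 0 < s ^ d := pow_pos hs0 d
  have hTs : t ^ ((d : ℝ) / 2) = s ^ d := by
    rw [hs, Real.sqrt_eq_rpow, ← Real.rpow_natCast, ← Real.rpow_mul ht.le]
    congr 1
    ring
  have hneg : t ^ (-((d : ℝ) / 2)) = (s ^ d)⁻¹ := by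
    rw [Real.rpow_neg ht.le, hTs]
  have hone : t ^ (1 - (d : ℝ) / 2) = s ^ 2 / s ^ d := by
    rw [Real.rpow_sub ht, Real.rpow_one, hTs, ← hts]
  have hQt : Q * s ^ 2 ≤ s ^ d * s ^ d := by
    have h2 : Q ≤ t ^ ((d : ℝ) - 1) := by rw [hQ]; exact min_le_left _ _
    have h3 : t ^ ((d : ℝ) - 1) * s ^ 2 = s ^ d * s ^ d := by
      rw [Real.rpow_sub ht, Real.rpow_one, ← hts, div_mul_cancel₀ _ ht.ne', ← hTs,
        ← Real.rpow_add ht]
      congr 1
      ring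
    rw [← h3]
    exact mul_le_mul_of_nonneg_right h2 (by positivity)
  obtain ⟨R, hR⟩ : ∃ R : ℝ, R = Q / s ^ d := ⟨_, rfl⟩
  have hR0 : 0 < R := by rw [hR]; positivity
  have hRQ : R * s ^ d = Q := by rw [hR]; field_simp
  have hR1 : R * s ^ 2 ≤ s ^ d := by
    have h3 : s ^ d * (R * s ^ 2) ≤ s ^ d * s ^ d := by
      calc s ^ d * (R * s ^ 2) = R * s ^ d * s ^ 2 := by ring
        _ = Q * s ^ 2 := by rw [hRQ]
        _ ≤ _ := hQt
    exact le_of_mul_le_mul_left h3 hsd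
  have hR2 : R * s ^ d ≤ (L : ℝ) ^ d := by rw [hRQ]; exact hQL
  obtain ⟨w, hw⟩ : ∃ w : ℝ, w = a ^ (d + 1) * s ^ d := ⟨_, rfl⟩
  have hw0 : 0 < w := by rw [hw]; positivity
  have hMw : (M : ℝ) = w * (a ^ 2 * R) := by
    rw [hMQ, ← hRQ, hw]
    ring
  rcases lt_or_ge (a ^ 2 * R) 1 with hi | hii
  · -- (i)
    refine (typ ?_).trans (fin C1 (by linarith))
    rw [min_eq_left hLt.le, hTs, hMw, ← hw]
    calc w * (a ^ 2 * R) ≤ w * 1 := mul_le_mul_of_nonneg_left hi.le hw0.le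
      _ = w := mul_one w
  rcases lt_or_ge w 1 with hwa | hwb
  · -- (ii), `w < 1`
    have h1 := hS L hL t ht1 (M + 1) v
    have e1 : stirExp (nnRate d L) t (fun g => if cycleLen g v < M + 1 then 1 else 0) =
        stirExp (nnRate d L) t (fun g => if cycleLen g v ≤ M then 1 else 0) := by
      congr 1
      funext g
      by_cases h : cycleLen g v ≤ M
      · rw [if_pos h, if_pos (Nat.lt_succ_of_le h)]
      · rw [if_neg h, if_neg (fun h' => h (Nat.le_of_lt_succ h'))]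
    have hM2 : ((M + 1 : ℕ) : ℝ) ≤ 2 * (a ^ 2 * R) := by
      push_cast
      have : (M : ℝ) ≤ a ^ 2 * R := by
        rw [hMw]
        calc w * (a ^ 2 * R) ≤ 1 * (a ^ 2 * R) :=
              mul_le_mul_of_nonneg_right hwa.le (by positivity)
          _ = a ^ 2 * R := one_mul _
      linarith
    have hM0 : (0 : ℝ) ≤ ((M + 1 : ℕ) : ℝ) := Nat.cast_nonneg _
    have hld : 0 < (L : ℝ) ^ d := by positivity
    have ha2 : a ^ 2 ≤ a := by nlinarith
    have x1 : ((M + 1 : ℕ) : ℝ) * (s ^ 2 / s ^ d) ≤ 2 * a ^ 2 := by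
      rw [← mul_div_assoc, div_le_iff₀ hsd]
      calc ((M + 1 : ℕ) : ℝ) * s ^ 2 ≤ 2 * (a ^ 2 * R) * s ^ 2 :=
            mul_le_mul_of_nonneg_right hM2 (by positivity)
        _ = 2 * a ^ 2 * (R * s ^ 2) := by ring
        _ ≤ 2 * a ^ 2 * s ^ d := mul_le_mul_of_nonneg_left hR1 (by positivity)
    have x2 : ((M + 1 : ℕ) : ℝ) * s ^ d / (L : ℝ) ^ d ≤ 2 * a ^ 2 := by
      rw [div_le_iff₀ hld]
      calc ((M + 1 : ℕ) : ℝ) * s ^ d ≤ 2 * (a ^ 2 * R) * s ^ d :=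
            mul_le_mul_of_nonneg_right hM2 (by positivity)
        _ = 2 * a ^ 2 * (R * s ^ d) := by ring
        _ ≤ 2 * a ^ 2 * (L : ℝ) ^ d := mul_le_mul_of_nonneg_left hR2 (by positivity)
    have x3 : ((M + 1 : ℕ) : ℝ) ^ 2 * t / (L : ℝ) ^ d ≤ 4 * a ^ 2 := by
      have e : ((M + 1 : ℕ) : ℝ) ^ 2 * t / (L : ℝ) ^ d =
          (((M + 1 : ℕ) : ℝ) * (s ^ 2 / s ^ d)) * (((M + 1 : ℕ) : ℝ) * s ^ d / (L : ℝ) ^ d) := by
        rw [hts]
        field_simp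
      rw [e]
      have h2 := hapow 2
      calc (((M + 1 : ℕ) : ℝ) * (s ^ 2 / s ^ d)) * (((M + 1 : ℕ) : ℝ) * s ^ d / (L : ℝ) ^ d) ≤
            (2 * a ^ 2) * 2 := mul_le_mul x1 (by linarith) (by positivity) (by positivity)
        _ = 4 * a ^ 2 := by ring
    rw [e1] at h1
    refine h1.trans (le_trans ?_ (fin (6 * C3) (by linarith)))
    rw [hone]
    calc C3 * (((M + 1 : ℕ) : ℝ) * (s ^ 2 / s ^ d) + ((M + 1 : ℕ) : ℝ) ^ 2 * t / (L : ℝ) ^ d) ≤
          C3 * (6 * a) := mul_le_mul_of_nonneg_left (by linarith) hC3.le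
      _ = 6 * C3 * a := by ring
  -- (ii), `w ≥ 1`
  obtain ⟨K, hK⟩ : ∃ K : ℕ, K = ⌊a ^ 2 * R⌋₊ := ⟨_, rfl⟩
  have hK1 : (K : ℝ) ≤ a ^ 2 * R := by rw [hK]; exact Nat.floor_le (by positivity)
  have hK2 : a ^ 2 * R < K + 1 := by rw [hK]; exact Nat.lt_floor_add_one _
  obtain ⟨W, hW⟩ : ∃ W : ℕ, W = ⌈w⌉₊ := ⟨_, rfl⟩
  have hW1 : w ≤ W := by rw [hW]; exact Nat.le_ceil _
  have hW2 : (W : ℝ) ≤ 2 * w := by
    have : (W : ℝ) < w + 1 := by rw [hW]; exact Nat.ceil_lt_add_one hw0.le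
    linarith
  have hWpos : 0 < W := by
    have : (0 : ℝ) < W := by linarith
    exact_mod_cast this
  have hMKW : M ≤ (K + 1) * W := by
    have : (M : ℝ) ≤ ((K + 1) * W : ℕ) := by
      rw [hMw]
      push_cast
      calc w * (a ^ 2 * R) = (a ^ 2 * R) * w := mul_comm _ _
        _ ≤ ((K : ℝ) + 1) * W := mul_le_mul hK2.le hW1 hw0.le (by positivity)
    exact_mod_cast this
  have hmono : stirExp (nnRate d L) t (fun g => if cycleLen g v ≤ M then 1 else 0) ≤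
      stirExp (nnRate d L) t (fun g => if cycleLen g v ≤ (K + 1) * W then 1 else 0) :=
    exp_mono _ t ht.le hJ (fun g => cycleLen g v ≤ M) (fun g => cycleLen g v ≤ (K + 1) * W)
      (fun g h => h.trans hMKW)
  refine hmono.trans ?_
  obtain ⟨u, hu⟩ : ∃ u : ℝ, u = a * s := ⟨_, rfl⟩
  have hu0 : 0 < u := by rw [hu]; positivity
  have hua : u ^ d * a = w := by
    rw [hu, hw]
    ring
  have hud : 1 ≤ u ^ d := by
    by_contra hcon
    push Not at hcon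
    have : u ^ d * a < 1 := by
      calc u ^ d * a ≤ u ^ d * 1 := mul_le_mul_of_nonneg_left ha1.le (pow_pos hu0 d).le
        _ = u ^ d := mul_one _
        _ < 1 := hcon
    linarith
  have hu1 : 1 ≤ u := by
    by_contra hcon
    push Not at hcon
    have : u ^ d < 1 := pow_lt_one₀ hu0.le hcon (by omega)
    linarith
  obtain ⟨m, hm⟩ : ∃ m : ℕ, m = ⌊4 * u⌋₊ := ⟨_, rfl⟩
  have hm1 : (m : ℝ) ≤ 4 * u := by rw [hm]; exact Nat.floor_le (by positivity)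
  have hm2 : 4 * u < m + 1 := by rw [hm]; exact Nat.lt_floor_add_one _
  have hm3 : 3 * u ≤ m := by linarith
  have hmpos : 1 ≤ m := by
    have : (1 : ℝ) ≤ m := by linarith
    exact_mod_cast this
  have hsL : s ≤ L := by
    rw [hs]
    refine (Real.sqrt_le_sqrt hLt.le).trans (le_of_eq ?_)
    exact Real.sqrt_sq hL0.le
  have hmL : m ≤ L := by
    have h1 : 4 * u ≤ s := by
      have h2 : 4 * a ≤ 1 := by linarith
      calc 4 * u = 4 * a * s := by rw [hu]; ring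
        _ ≤ 1 * s := mul_le_mul_of_nonneg_right h2 hs0.le
        _ = s := one_mul _
    have : (m : ℝ) ≤ L := by linarith
    exact_mod_cast this
  obtain ⟨k, hk⟩ : ∃ k : ℕ, k = ⌊1 / a⌋₊ := ⟨_, rfl⟩
  have hk1 : (k : ℝ) ≤ 1 / a := by rw [hk]; exact Nat.floor_le (by positivity)
  have hk2 : 1 / a < k + 1 := by rw [hk]; exact Nat.lt_floor_add_one _
  have hka : (k : ℝ) * a ≤ 1 := by rwa [le_div_iff₀ ha0] at hk1
  have hk3 : 1 / ((k : ℝ) + 1) ≤ a := by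
    rw [div_le_iff₀ (by positivity)]
    rw [div_lt_iff₀ ha0] at hk2
    linarith
  obtain ⟨B, hBc, hvB, hBd⟩ := box_at d L m hmpos hmL v
  have hkn : ((k * (4 * W) : ℕ) : ℝ) ≤ 8 * u ^ d := by
    push_cast
    calc (k : ℝ) * (4 * W) ≤ k * (4 * (2 * w)) := by gcongr
      _ = 8 * u ^ d * (k * a) := by rw [← hua]; ring
      _ ≤ 8 * u ^ d * 1 := mul_le_mul_of_nonneg_left hka (by positivity)
      _ = 8 * u ^ d := mul_one _
  have hcard : k * (4 * W) + 1 ≤ m ^ d := by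
    have h5 : (3 * u) ^ d ≤ (m : ℝ) ^ d := pow_le_pow_left₀ (by positivity) hm3 d
    have h6 : (27 : ℝ) ≤ 3 ^ d := by
      calc (27 : ℝ) = 3 ^ 3 := by norm_num
        _ ≤ 3 ^ d := pow_le_pow_right₀ (by norm_num) hd
    have h7 : 27 * u ^ d ≤ (3 * u) ^ d := by
      rw [mul_pow (3 : ℝ) u d]
      exact mul_le_mul_of_nonneg_right h6 (by positivity)
    have h8 : ((k * (4 * W) + 1 : ℕ) : ℝ) ≤ ((m ^ d : ℕ) : ℝ) := by
      rw [Nat.cast_add, Nat.cast_one, Nat.cast_pow]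
      linarith
    exact_mod_cast h8
  have hcard2 : Fintype.card (Fin k × Fin (4 * W)) ≤ Fintype.card {x // x ∈ B.erase v} := by
    rw [Fintype.card_prod, Fintype.card_fin, Fintype.card_fin, Fintype.card_coe,
      card_erase_of_mem hvB, hBc]
    omega
  obtain ⟨e⟩ := Function.Embedding.nonempty_of_card_le hcard2
  obtain ⟨f, hf⟩ : ∃ f : Fin k × Fin (4 * W) → (Fin d → ZMod L), f = fun p => (e p : Fin d → ZMod L) :=
    ⟨_, rfl⟩
  have ht0 : 0 < Real.sqrt t := Real.sqrt_pos.2 ht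
  have key := hCOMB (Fin d → ZMod L) (nnRate d L) t ht.le hJ v K W (4 * W) k le_rfl (by omega) f
    (fun p q h => e.injective (Subtype.ext (by rw [hf] at h; exact h)))
    (fun p => by rw [hf]; exact (mem_erase.1 (e p).2).1) (C0 * (d * m) / Real.sqrt t)
    (by positivity) (by
      intro p
      rw [swap_comm]
      refine (hD L hL t ht _ v).trans ?_
      refine div_le_div_of_nonneg_right ?_ ht0.le
      refine mul_le_mul_of_nonneg_left ?_ hC0.le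
      rw [hf]
      exact_mod_cast hBd _ (mem_erase.1 (e p).2).2)
  refine key.trans ?_
  have hη : C0 * (d * m) / Real.sqrt t ≤ 4 * (C0 * d) * a := by
    rw [div_le_iff₀ ht0, ← hs]
    have h1 : (m : ℝ) ≤ 4 * (a * s) := by rw [← hu]; exact hm1
    calc C0 * (d * m) = C0 * d * m := by ring
      _ ≤ C0 * d * (4 * (a * s)) := mul_le_mul_of_nonneg_left h1 hCd
      _ = _ := by ring
  obtain ⟨Im, hIm⟩ : ∃ Im : Finset (Fin d → ZMod L), Im = univ.image f := ⟨_, rfl⟩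
  rw [← hIm]
  have hImc : (Im.card : ℝ) ≤ ((k * (4 * W) : ℕ) : ℝ) := by
    have h1 : Im.card ≤ k * (4 * W) := by
      rw [hIm]
      refine card_image_le.trans (le_of_eq ?_)
      rw [card_univ, Fintype.card_prod, Fintype.card_fin, Fintype.card_fin]
    exact_mod_cast h1
  have hbad : ∀ z ∈ Im, stirExp (nnRate d L) t (fun g =>
      if ∃ m, 1 ≤ m ∧ m ≤ K ∧ (g ^ m) z ∈ Im then 1 else 0) ≤ C2 * (18 * a ^ 2) := by
    intro z _
    refine (hB L hL t ht1 K Im z).trans (mul_le_mul_of_nonneg_left ?_ hC2.le)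
    rw [hneg, hone]
    have h1 := num d hd a s L R K Im.card ha0 ha1.le hs0 hL0 hR1 hR2 (Nat.cast_nonneg _) hK1
      (hImc.trans (by rw [← hu]; exact hkn))
    rw [← hts] at h1
    rw [← hts]
    exact h1
  have hsum : (∑ z ∈ Im, stirExp (nnRate d L) t (fun g =>
      if ∃ m, 1 ≤ m ∧ m ≤ K ∧ (g ^ m) z ∈ Im then 1 else 0)) / ((W : ℝ) + 1) ≤ 72 * C2 * a := by
    rw [div_le_iff₀ (by positivity)]
    calc ∑ z ∈ Im, stirExp (nnRate d L) t (fun g =>
          if ∃ m, 1 ≤ m ∧ m ≤ K ∧ (g ^ m) z ∈ Im then 1 else 0) ≤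
          ∑ _z ∈ Im, C2 * (18 * a ^ 2) := sum_le_sum hbad
      _ = Im.card * (C2 * (18 * a ^ 2)) := by rw [sum_const, nsmul_eq_mul]
      _ ≤ ((k * (4 * W) : ℕ) : ℝ) * (C2 * (18 * a ^ 2)) :=
          mul_le_mul_of_nonneg_right hImc (by positivity)
      _ = 72 * C2 * a * W * (k * a) := by push_cast; ring
      _ ≤ 72 * C2 * a * W * 1 := mul_le_mul_of_nonneg_left hka (by positivity)
      _ ≤ 72 * C2 * a * (W + 1) := by
          have : 0 ≤ 72 * C2 * a := by positivity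
          nlinarith
  refine le_trans ?_ (fin (2 + 8 * (C0 * d) + 72 * C2) (by linarith))
  have h9 : 2 * (1 / ((k : ℝ) + 1) + C0 * (d * m) / Real.sqrt t) ≤ 2 * (a + 4 * (C0 * d) * a) := by
    linarith
  linarith

end Pool.Agent.Y794.LR
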